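import Mathlib
import Pool.Agent.H408R3.Transfer
import Pool.Agent.H408R3.Pow2

/-!
All numbers of variables of the polynomial rings which contain a homogeneous ideal with a given
convergent depth function: all `n ≥ max f + 1` if `f` is constant and all `n ≥ max f + 2` otherwise.
Monomial ideals: every `n ≥ max f + 3` works.
-/

set_option autoImplicit false

namespace Pool.Agent.Results.MP_07d438_ag.AllVariables

open MvPolynomial RingTheory.Sequence

universe u

/-- The depth of `K[x_1, …, x_n] ⧸ J`: the supremum of the lengths of the regular sequences on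
`K[x_1, …, x_n] ⧸ J` all of whose terms lie in `𝔪 = (x_1, …, x_n)`. -/
noncomputable def depthQuot {K : Type u} [Field K] {n : ℕ}
    (J : Ideal (MvPolynomial (Fin n) K)) : ℕ∞ :=
  ⨆ (rs : List (MvPolynomial (Fin n) K))
    (_ : (∀ x ∈ rs, x ∈ Ideal.span (Set.range (X : Fin n → MvPolynomial (Fin n) K))) ∧
      IsRegular (MvPolynomial (Fin n) K ⧸ J) rs), (rs.length : ℕ∞)

/-- `Q` is a homogeneous ideal: it is generated by homogeneous polynomials. -/
def IsHomogeneousIdeal {K : Type u} [Field K] {n : ℕ} (Q : Ideal (MvPolynomial (Fin n) K)) : Prop :=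
  ∃ G : Set (MvPolynomial (Fin n) K), (∀ p ∈ G, ∃ d : ℕ, p.IsHomogeneous d) ∧ Q = Ideal.span G

/-- `Q` is a monomial ideal: it is generated by monomials. -/
def IsMonomialIdeal {K : Type u} [Field K] {n : ℕ} (Q : Ideal (MvPolynomial (Fin n) K)) : Prop :=
  ∃ E : Set (Fin n →₀ ℕ), Q = Ideal.span ((fun e => monomial e (1 : K)) '' E)

/-- `f` is the depth function of a proper nonzero homogeneous ideal `Q` of `K[x_1, …, x_n]`. -/
def Realizes (K : Type u) [Field K] (n : ℕ) (f : ℕ → ℕ) : Prop :=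
  ∃ Q : Ideal (MvPolynomial (Fin n) K), IsHomogeneousIdeal Q ∧ Q ≠ ⊥ ∧ Q ≠ ⊤ ∧
    ∀ t, 1 ≤ t → depthQuot (Q ^ t) = (f t : ℕ∞)

/-- `f` is the depth function of a proper nonzero monomial ideal `Q` of `K[x_1, …, x_n]`. -/
def RealizesMonomial (K : Type u) [Field K] (n : ℕ) (f : ℕ → ℕ) : Prop :=
  ∃ Q : Ideal (MvPolynomial (Fin n) K), IsMonomialIdeal Q ∧ Q ≠ ⊥ ∧ Q ≠ ⊤ ∧
    ∀ t, 1 ≤ t → depthQuot (Q ^ t) = (f t : ℕ∞)

open Pool.Agent.H408R3 in
theorem le_mm {K : Type u} [Field K] {n : ℕ} (Q : Ideal (MvPolynomial (Fin n) K))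
    (h : IsHomogeneousIdeal Q) (h1 : Q ≠ ⊤) : Q ≤ Pool.Agent.Helper698.Dstab.mm K n := by
  obtain ⟨G, hG, rfl⟩ := h
  rw [Ideal.span_le]
  intro p hp
  obtain ⟨d, hd⟩ := hG p hp
  show p ∈ Pool.Agent.Helper698.Dstab.mm K n
  rw [mem_mm_iff]
  by_contra hne
  have hd0 : d = 0 := by
    by_contra hd0
    apply hne
    have := hd.coeff_eq_zero (d := 0) (by simpa using (Ne.symm hd0))
    exact this
  subst hd0
  rw [← totalDegree_zero_iff_isHomogeneous] at hd
  have h2 := totalDegree_eq_zero_iff_eq_C.1 hd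
  apply h1
  rw [Ideal.eq_top_iff_one]
  have h3 : C ((constantCoeff p)⁻¹) * p ∈ Ideal.span G :=
    Ideal.mul_mem_left _ _ (Ideal.subset_span hp)
  have h4 : C ((constantCoeff p)⁻¹) * p = 1 := by
    have h5 : p = C (constantCoeff p) := h2
    rw [h5, constantCoeff_C, ← C_mul, inv_mul_cancel₀, C_1]
    exact hne
  rwa [h4] at h3

theorem lower {K : Type u} [Field K] {n : ℕ} (f : ℕ → ℕ) (m : ℕ)
    (hm : IsGreatest (f '' {t | 1 ≤ t}) m) (h : Realizes K n f) :
    m + 1 ≤ n ∧ ((∃ t, 1 ≤ t ∧ f t ≠ m) → m + 2 ≤ n) := by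
  obtain ⟨Q, hh, hQ0, hQ1, hf⟩ := h
  have hQ := le_mm Q hh hQ1
  obtain ⟨t0, ht0, hft0⟩ := hm.1
  have h1 : (m : ℕ∞) + 1 ≤ n := by
    rw [← hft0, ← hf t0 ht0]
    exact Pool.Agent.H408R3.depthQuot_add_one_le _ (pow_ne_zero _ hQ0)
      ((Ideal.pow_le_self (by have : 1 ≤ t0 := ht0; omega)).trans hQ)
  have h1' : m + 1 ≤ n := by exact_mod_cast h1
  refine ⟨h1', ?_⟩
  · rintro ⟨t, ht, hne⟩
    by_contra hcon
    apply hne
    have hn : n = m + 1 := by omega
    have h2 := Pool.Agent.H408R3.const_of_depth Q hQ0 hQ ht0 (by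
      have := hf t0 ht0
      show depthQuot (Q ^ t0) + 1 = n
      rw [this, hft0, hn]; push_cast; rfl) ht
    have h3 : depthQuot (Q ^ t) + 1 = n := h2
    rw [hf t ht, hn] at h3
    have h4 : f t + 1 = m + 1 := by exact_mod_cast h3
    omega

theorem upper_const (K : Type u) [Field K] (f : ℕ → ℕ) (m : ℕ)
    (hc : ∀ t, 1 ≤ t → f t = m) : Realizes K (m + 1) f := by
  have hX : (X 0 : MvPolynomial (Fin (m + 1)) K) ≠ 0 := X_ne_zero 0
  have hle : Ideal.span {(X 0 : MvPolynomial (Fin (m + 1)) K)} ≤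
      Pool.Agent.Helper698.Dstab.mm K (m + 1) := by
    rw [Ideal.span_singleton_le_iff_mem]
    exact Ideal.subset_span ⟨0, rfl⟩
  have h0 : Ideal.span {(X 0 : MvPolynomial (Fin (m + 1)) K)} ≠ ⊥ := by
    rw [Ne, Ideal.span_singleton_eq_bot]; exact hX
  refine ⟨Ideal.span {X 0}, ⟨{X 0}, ?_, rfl⟩, h0, ?_, ?_⟩
  · rintro p rfl
    exact ⟨1, isHomogeneous_X K 0⟩
  · intro h
    rw [h] at hle
    exact Pool.Agent.Helper698.Dstab.mm_ne_top (top_le_iff.1 hle)
  · intro t ht
    have hle' : Ideal.span {(X 0 : MvPolynomial (Fin (m + 1)) K)} ^ t ≤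
        Pool.Agent.Helper698.Dstab.mm K (m + 1) := (Ideal.pow_le_self (by omega)).trans hle
    have h1 := Pool.Agent.H408R3.depthQuot_add_one_le _ (pow_ne_zero t h0) hle'
    rw [hc t ht]
    apply le_antisymm
    · have h2 : depthQuot (Ideal.span {(X 0 : MvPolynomial (Fin (m + 1)) K)} ^ t) + 1 ≤
          (m : ℕ∞) + 1 := by
        refine le_trans h1 ?_
        push_cast; exact le_rfl
      exact (ENat.add_le_add_iff_right ENat.one_ne_top).1 h2
    · have h2 := Pool.Agent.H408R3.EV_principal ((X 0 : MvPolynomial (Fin (m + 1)) K) ^ t)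
        (pow_ne_zero t hX)
      rw [← Ideal.span_singleton_pow] at h2
      obtain ⟨rs, hlen, hmem, hreg⟩ :=
        Pool.Agent.Helper698.Dstab.exists_regular_of_EV _ hle' _ h2
      unfold depthQuot
      refine le_iSup_of_le rs (le_iSup_of_le ⟨hmem, hreg⟩ ?_)
      rw [hlen, Nat.add_sub_cancel]

theorem upper_all (K : Type u) [Field K] (f : ℕ → ℕ) (hf : ∃ N, ∀ t, N ≤ t → f t = f N) (m : ℕ)
    (hfm : ∀ t, 1 ≤ t → f t ≤ m) : Realizes K (m + 2) f := by
  obtain ⟨N, hN⟩ := hf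
  have hT : 1 ≤ N + 1 := by omega
  let g : ℕ → ℕ := fun s => m - f (s + 1)
  have hgm : ∀ s, g s ≤ m := fun s => Nat.sub_le _ _
  refine ⟨Pool.Agent.H408R3.QQ K (N + 1) m g, Pool.Agent.H408R3.QQ_homogeneous hgm,
    Pool.Agent.H408R3.QQ_ne_bot, ?_, ?_⟩
  · intro h
    have h1 := Pool.Agent.H408R3.QQ_le (K := K) (T := N + 1) (m := m) (g := g)
    rw [h] at h1
    exact Pool.Agent.Helper698.Dstab.mm_ne_top (top_le_iff.1 h1)
  · intro t ht
    obtain ⟨n, rfl⟩ : ∃ n, t = n + 1 := ⟨t - 1, by omega⟩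
    have h1 := Pool.Agent.H408R3.depth_QQ (K := K) hT hgm n
    have h2 : m - g (Pool.Agent.H408R3.act (N + 1) n) = f (n + 1) := by
      show m - (m - f (Pool.Agent.H408R3.act (N + 1) n + 1)) = f (n + 1)
      have h3 : f (Pool.Agent.H408R3.act (N + 1) n + 1) = f (n + 1) := by
        unfold Pool.Agent.H408R3.act
        rcases Nat.lt_or_ge n N with h | h
        · congr 1; omega
        · rw [hN (n + 1) (by omega), hN _ (by omega)]
      rw [h3]
      have := hfm (n + 1) (by omega)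
      omega
    rw [h2] at h1
    exact h1

/-! ### Monomial ideals -/

section Mono

open Pool.Agent.H408R3 Pool.Agent.H408R3.PDF Pool.Agent.Helper698.Dstab Pool.Agent.Helper698.Symb

variable {T p : ℕ} {G : ℕ → ℕ} {K : Type u} [Field K]

theorem MI_le_mm (hp : 1 ≤ p) (n : ℕ) : MI K (EE T p G n) ≤ mm K (p + 2) := by
  have hup := EE_upper (T := T) (p := p) (G := G) n
  intro f hf
  rw [mem_mm_iff]
  by_contra hne
  have h3 := (mem_MI hup f).1 hf 0 (mem_support_iff.2 hne)
  have h4 := EE_wt h3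
  have h5 : w2 (0 : Fin (p + 2) →₀ ℕ) = 0 := by simp [w2]
  have h6 := AA_gt (T := T) hp
  have h7 : 0 < 2 * D2 T p * (n + 1) := by
    unfold D2
    have : 0 < AA T p := by omega
    positivity
  omega

theorem MI_ne_bot (n : ℕ) : MI K (EE T p G n) ≠ ⊥ := by
  intro h
  have h1 : (monomial (ex2 p (2 * D2 T p * (n + 1) + 2) 0) 1 : MvPolynomial (Fin (p + 2)) K) ∈
      MI K (EE T p G n) := by
    apply monomial_mem_MI
    left
    rw [w2_ex2]
  rw [h, Ideal.mem_bot, monomial_eq_zero] at h1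
  exact one_ne_zero h1

theorem depth_MI (hp : 1 ≤ p) (hT : 1 ≤ T) (hG1 : ∀ s, 1 ≤ G s) (hGp : ∀ s, G s ≤ p) (n : ℕ) :
    depthQuot (MI K (EE T p G n)) = ((p - G (ac T n) : ℕ) : ℕ∞) := by
  classical
  have hup := EE_upper (T := T) (p := p) (G := G) n
  have hle := MI_le_mm (K := K) (T := T) (G := G) hp n
  apply le_antisymm
  · unfold depthQuot
    refine iSup_le fun rs => iSup_le fun hrs => ?_
    let U : Finset (Fin (p + 2)) := Finset.univ.filter (fun j => j.val < G (ac T n) + 2)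
    have hU : U.card = G (ac T n) + 2 := by
      rw [Fin.card_filter_val_lt]
      have := hGp (ac T n)
      omega
    have h3 := len_le_of_killed (MI K (EE T p G n)) (monomial (ke T p n) 1) (by
        intro h hh
        rw [mem_mm_iff]
        by_contra hne
        apply ke_notMem (G := G) hp hT n
        apply (mem_MI hup _).1 hh
        rw [mem_support_iff]
        have := coeff_mul_monomial (0 : Fin (p + 2) →₀ ℕ) (ke T p n) (1 : K) h
        rw [zero_add, mul_one] at this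
        rw [this]
        exact hne) U (by
        intro j hj
        have hj' : j.val < G (ac T n) + 2 := (Finset.mem_filter.1 hj).2
        have h4 : (X j : MvPolynomial (Fin (p + 2)) K) * monomial (ke T p n) 1 =
            monomial (ke T p n + Finsupp.single j 1) 1 := by
          rw [X, monomial_mul, one_mul, add_comm (Finsupp.single j 1)]
        rw [h4]
        apply monomial_mem_MI
        have hwk := w2_ke hp hT n
        revert hj'
        refine Fin.cases ?_ (fun i => Fin.cases ?_ (fun i => ?_) i) j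
        · intro _
          left
          rw [w2_add, hwk]
          have : w2 (Finsupp.single 0 1 : Fin (p + 2) →₀ ℕ) = 1 := by simp [w2]
          omega
        · intro _
          left
          rw [Fin.succ_zero_eq_one, w2_add, hwk]
          have : w2 (Finsupp.single 1 1 : Fin (p + 2) →₀ ℕ) = 2 := by simp [w2]
          omega
        · intro hj'
          apply ke_z hp hT n i
          simp only [Fin.val_succ] at hj'
          omega) rs hrs.2.toIsWeaklyRegular hrs.1
    have h5 : rs.length ≤ p - G (ac T n) := by omega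
    exact_mod_cast h5
  · have h1 := PD_EE (K := K) (n := n) hT hG1 hGp
    have h2 := EV_of_PD (G (ac T n) + 2) _ h1
    obtain ⟨rs, hlen, hmem, hreg⟩ := exists_regular_of_EV _ hle _ h2
    unfold depthQuot
    refine le_iSup_of_le rs (le_iSup_of_le ⟨hmem, hreg⟩ ?_)
    rw [hlen]
    have h5 : p - G (ac T n) ≤ p + 2 - (G (ac T n) + 2) := by omega
    exact_mod_cast h5

end Mono

theorem upper_mono (K : Type u) [Field K] (f : ℕ → ℕ) (hf : ∃ N, ∀ t, N ≤ t → f t = f N) (p : ℕ)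
    (hfm : ∀ t, 1 ≤ t → f t + 1 ≤ p) : RealizesMonomial K (p + 2) f := by
  obtain ⟨N, hN⟩ := hf
  have hT : 1 ≤ N + 1 := by omega
  have hp : 1 ≤ p := by
    have := hfm 1 le_rfl
    omega
  let G : ℕ → ℕ := fun s => p - f (s + 1)
  have hG1 : ∀ s, 1 ≤ G s := by
    intro s
    show 1 ≤ p - f (s + 1)
    have := hfm (s + 1) (by omega)
    omega
  have hGp : ∀ s, G s ≤ p := fun s => Nat.sub_le _ _
  refine ⟨Pool.Agent.Helper698.Dstab.MI K (Pool.Agent.H408R3.PDF.EE (N + 1) p G 0), ⟨_, rfl⟩,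
    MI_ne_bot 0, ?_, ?_⟩
  · intro h
    have h1 := MI_le_mm (K := K) (T := N + 1) (G := G) hp 0
    rw [h] at h1
    exact Pool.Agent.Helper698.Dstab.mm_ne_top (top_le_iff.1 h1)
  · intro t ht
    obtain ⟨n, rfl⟩ : ∃ n, t = n + 1 := ⟨t - 1, by omega⟩
    rw [Pool.Agent.H408R3.PDF.MI_pow hp, depth_MI hp hT hG1 hGp]
    congr 1
    show p - (p - f (Pool.Agent.H408R3.PDF.ac (N + 1) n + 1)) = f (n + 1)
    have h3 : f (Pool.Agent.H408R3.PDF.ac (N + 1) n + 1) = f (n + 1) := by
      unfold Pool.Agent.H408R3.PDF.ac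
      rcases Nat.lt_or_ge n N with h | h
      · congr 1; omega
      · rw [hN (n + 1) (by omega), hN _ (by omega)]
    rw [h3]
    have := hfm (n + 1) (by omega)
    omega

/-- The complete list of the numbers of variables for homogeneous ideals, and monomial ideals. -/
theorem result (K : Type u) [Field K] (f : ℕ → ℕ) (hf : ∃ N, ∀ t, N ≤ t → f t = f N) (m : ℕ)
    (hm : IsGreatest (f '' {t | 1 ≤ t}) m) :
    (∀ n, Realizes K n f ↔ m + 1 ≤ n ∧ ((∃ t, 1 ≤ t ∧ f t ≠ m) → m + 2 ≤ n)) ∧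
    (∀ n, RealizesMonomial K n f → Realizes K n f) ∧
    (∀ n, m + 3 ≤ n → RealizesMonomial K n f) := by
  have hfm : ∀ t, 1 ≤ t → f t ≤ m := fun t ht => hm.2 ⟨t, ht, rfl⟩
  refine ⟨fun n => ⟨lower f m hm, ?_⟩, ?_, ?_⟩
  · rintro ⟨h1, h2⟩
    rcases Nat.lt_or_ge n (m + 2) with h | h
    · obtain rfl : n = m + 1 := by omega
      refine upper_const K f m ?_
      intro t ht
      by_contra hne
      have := h2 ⟨t, ht, hne⟩
      omega
    · obtain ⟨k, rfl⟩ : ∃ k, n = k + 2 := ⟨n - 2, by omega⟩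
      exact upper_all K f hf k (fun t ht => (hfm t ht).trans (by omega))
  · rintro n ⟨Q, ⟨E, rfl⟩, h⟩
    refine ⟨_, ⟨_, ?_, rfl⟩, h⟩
    rintro _ ⟨e, -, rfl⟩
    exact ⟨e.degree, isHomogeneous_monomial _ rfl⟩
  · intro n hn
    obtain ⟨k, rfl⟩ : ∃ k, n = k + 2 := ⟨n - 2, by omega⟩
    exact upper_mono K f hf k (fun t ht => by have := hfm t ht; omega)

end Pool.Agent.Results.MP_07d438_ag.AllVariables
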